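import Pool.Agent.Q44.PG.Stm

/-!
# Project PG (helper44), job FI: finitely many balls
-/

set_option autoImplicit false

namespace Pool.Agent.Q96.PG.FI

open MvPolynomial Pool.Agent.Q44.SA Pool.Agent.Q44.PG

/-- a nonzero vector has a multiple of norm one -/
theorem exists_one {F : Type} [NontriviallyNormedField F] {n : ℕ} {v : Fin n → F} (hv : v ≠ 0) :
    ∃ c : F, ‖c • v‖ = 1 := by
  obtain ⟨k, hk⟩ := Function.ne_iff.1 hv
  have : Nonempty (Fin n) := ⟨k⟩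
  obtain ⟨m, hm⟩ := Finite.exists_max fun k => ‖v k‖
  have h1 : ‖v m‖ = ‖v‖ :=
    le_antisymm (norm_le_pi_norm v m) ((pi_norm_le_iff_of_nonneg (norm_nonneg _)).2 hm)
  refine ⟨(v m)⁻¹, ?_⟩
  rw [norm_smul, norm_inv, h1, inv_mul_cancel₀ (norm_ne_zero_iff.2 hv)]

theorem map_ne {K F : Type} [Field K] [Field F] (σ : K →+* F) {n : ℕ} {y : Fin n → K}
    (hy : y ≠ 0) : (σ ∘ y : Fin n → F) ≠ 0 := by
  intro h
  apply hy
  funext i
  have h1 := congrFun h i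
  exact (map_eq_zero σ).1 h1

theorem main : P_fin := by
  intro K _ n r L _ _ _ σ I ε hε
  have hc : ∀ (y : {y : Fin n → K // Pt (RingHom.id K) I y}) (i : Fin r),
      ∃ c : L i, ‖c • (σ i ∘ y.1 : Fin n → L i)‖ = 1 := fun y i => exists_one (map_ne (σ i) y.2.1)
  choose c hc using hc
  set N : {y : Fin n → K // Pt (RingHom.id K) I y} → ∀ i, Fin n → L i :=
    fun y i => c y i • (σ i ∘ y.1) with hN
  have htb : TotallyBounded (Set.range N) := by
    refine (isCompact_closedBall (0 : ∀ i, Fin n → L i) 1).totallyBounded.subset ?_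
    rintro _ ⟨y, rfl⟩
    rw [mem_closedBall_zero_iff, pi_norm_le_iff_of_nonneg zero_le_one]
    intro i
    exact (hc y i).le
  obtain ⟨t, ht, htf, hcov⟩ := Metric.finite_approx_of_totallyBounded htb ε hε
  have hpre : ∀ b : t, ∃ y, N y = b.1 := fun b => ht b.2
  choose g hg using hpre
  have : Finite t := htf
  have : Fintype t := Fintype.ofFinite t
  classical
  refine ⟨Finset.univ.image fun b : t => (g b).1, ?_, ?_⟩
  · intro a ha
    obtain ⟨b, -, rfl⟩ := Finset.mem_image.1 ha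
    exact (g b).2
  · intro y hy
    have h1 : N ⟨y, hy⟩ ∈ ⋃ b ∈ t, Metric.ball b ε := hcov ⟨_, rfl⟩
    simp only [Set.mem_iUnion] at h1
    obtain ⟨b, hb, hd⟩ := h1
    refine ⟨(g ⟨b, hb⟩).1, Finset.mem_image.2 ⟨⟨b, hb⟩, Finset.mem_univ _, rfl⟩, fun i => ?_⟩
    refine ⟨c ⟨y, hy⟩ i, c (g ⟨b, hb⟩) i, hc ⟨y, hy⟩ i, hc (g ⟨b, hb⟩) i, ?_⟩
    have h2 : dist (N ⟨y, hy⟩ i) (N (g ⟨b, hb⟩) i) ≤ dist (N ⟨y, hy⟩) (N (g ⟨b, hb⟩)) :=
      dist_le_pi_dist _ _ i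
    rw [hg ⟨b, hb⟩] at h2
    rw [Metric.mem_ball] at hd
    have h3 : dist (N ⟨y, hy⟩ i) (N (g ⟨b, hb⟩) i) ≤ ε := by
      rw [hg ⟨b, hb⟩]
      exact h2.trans hd.le
    rw [dist_eq_norm] at h3
    exact h3

end Pool.Agent.Q96.PG.FI
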