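import Pool.Agent.Q44.PG.Stm
import Pool.Agent.Q96.PG.FI

/-!
# Project PG (helper44), job CL: balls of rational points
-/

set_option autoImplicit false

namespace Pool.Agent.Q96.PG.CL

open MvPolynomial Pool.Agent.Q44.SA Pool.Agent.Q44.PG
open Pool.Agent.Q96.PG.FI (exists_one map_ne)

/-- the relation for vectors -/
def R {F : Type} [NontriviallyNormedField F] {n : ℕ} (ε : ℝ) (u v : Fin n → F) : Prop :=
  ∃ c c' : F, ‖c • u‖ = 1 ∧ ‖c' • v‖ = 1 ∧ ‖c • u - c' • v‖ ≤ ε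

theorem R_refl {F : Type} [NontriviallyNormedField F] {n : ℕ} {ε : ℝ} (hε : 0 < ε) {u : Fin n → F}
    (hu : u ≠ 0) : R ε u u := by
  obtain ⟨c, hc⟩ := exists_one hu
  refine ⟨c, c, hc, hc, ?_⟩
  rw [sub_self, norm_zero]
  exact hε.le

theorem R_symm {F : Type} [NontriviallyNormedField F] {n : ℕ} {ε : ℝ} {u v : Fin n → F}
    (h : R ε u v) : R ε v u := by
  obtain ⟨c, c', h1, h2, h3⟩ := h
  exact ⟨c', c, h2, h1, by rwa [norm_sub_rev]⟩

theorem R_trans {F : Type} [NontriviallyNormedField F] [IsUltrametricDist F] {n : ℕ} {ε : ℝ}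
    {u v w : Fin n → F} (h : R ε u v) (h' : R ε v w) : R ε u w := by
  obtain ⟨c, c', h1, h2, h3⟩ := h
  obtain ⟨e, e', h4, h5, h6⟩ := h'
  have hv : ‖v‖ ≠ 0 := by
    intro h0
    rw [norm_smul, h0, mul_zero] at h2
    exact zero_ne_one h2
  have hce : ‖c'‖ = ‖e‖ := by
    rw [norm_smul] at h2 h4
    exact mul_right_cancel₀ hv (h2.trans h4.symm)
  have he : e ≠ 0 := by
    intro h0
    rw [h0, zero_smul, norm_zero] at h4
    exact zero_ne_one h4
  have hs : ‖c' / e‖ = 1 := by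
    rw [norm_div, hce, div_self (norm_ne_zero_iff.2 he)]
  refine ⟨c, c' / e * e', h1, ?_, ?_⟩
  · rw [mul_smul, norm_smul, hs, h5, mul_one]
  · have h7 : c • u - (c' / e * e') • w = (c • u - c' • v) + (c' / e) • (e • v - e' • w) := by
      rw [smul_sub, smul_smul, smul_smul, div_mul_cancel₀ _ he]
      abel
    rw [h7]
    refine (IsUltrametricDist.norm_add_le_max _ _).trans (max_le h3 ?_)
    rw [norm_smul, hs, one_mul]
    exact h6

theorem cl : P_cl := by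
  intro K _ n r L _ _ σ I ε hε
  refine ⟨fun y hy i => R_refl hε (map_ne (σ i) hy), fun x y hy => ?_⟩
  ext z
  constructor
  · rintro ⟨hz, hzx⟩
    exact ⟨hz, fun i => R_trans (hzx i) (R_symm (hy.2 i))⟩
  · rintro ⟨hz, hzy⟩
    exact ⟨hz, fun i => R_trans (hzy i) (hy.2 i)⟩

/-- vectors near `x` are in relation with `x` -/
theorem R_of_near {F : Type} [NontriviallyNormedField F] [IsUltrametricDist F] {n : ℕ} {ε : ℝ}
    (hε1 : ε < 1) {u x : Fin n → F} (hx : x ≠ 0) {c : F} (h : ‖c • u - x‖ < ε * ‖x‖) :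
    R ε u x := by
  have hx0 : 0 < ‖x‖ := norm_pos_iff.2 hx
  have h1 : ‖c • u - x‖ < ‖x‖ := h.trans_le (mul_le_of_le_one_left hx0.le hε1.le)
  have h2 : ‖c • u‖ = ‖x‖ := by
    apply le_antisymm
    · calc ‖c • u‖ = ‖(c • u - x) + x‖ := by rw [sub_add_cancel]
        _ ≤ max ‖c • u - x‖ ‖x‖ := IsUltrametricDist.norm_add_le_max _ _
        _ ≤ ‖x‖ := max_le h1.le le_rfl
    · by_contra hcon
      rw [not_le] at hcon
      have h3 : ‖x‖ ≤ max ‖c • u‖ ‖x - c • u‖ := by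
        calc ‖x‖ = ‖c • u + (x - c • u)‖ := by rw [add_sub_cancel]
          _ ≤ _ := IsUltrametricDist.norm_add_le_max _ _
      rw [norm_sub_rev] at h3
      exact absurd h3 (not_le.2 (max_lt hcon h1))
  obtain ⟨c', hc'⟩ := exists_one hx
  refine ⟨c' * c, c', ?_, hc', ?_⟩
  · rw [mul_smul, norm_smul, h2, ← norm_smul, hc']
  · rw [mul_smul, ← smul_sub, norm_smul]
    have h4 : ‖c'‖ * ‖x‖ = 1 := by rw [← norm_smul, hc']
    calc ‖c'‖ * ‖c • u - x‖ ≤ ‖c'‖ * (ε * ‖x‖) := mul_le_mul_of_nonneg_left h.le (norm_nonneg _)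
      _ = ε * (‖c'‖ * ‖x‖) := by ring
      _ = ε := by rw [h4, mul_one]

/-- vectors in relation with `x` have multiples near `x` -/
theorem near_of_R {F : Type} [NontriviallyNormedField F] {n : ℕ} {ε : ℝ} {u x : Fin n → F}
    (h : R ε u x) : ∃ c : F, c ≠ 0 ∧ ‖c • u - x‖ ≤ ‖x‖ * ε := by
  obtain ⟨c, c', h1, h2, h3⟩ := h
  have hc : c ≠ 0 := by
    intro h0
    rw [h0, zero_smul, norm_zero] at h1
    exact zero_ne_one h1
  have hc' : c' ≠ 0 := by
    intro h0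
    rw [h0, zero_smul, norm_zero] at h2
    exact zero_ne_one h2
  have h4 : ‖c'‖ * ‖x‖ = 1 := by rw [← norm_smul, h2]
  have h5 : ‖c'⁻¹‖ = ‖x‖ := by
    rw [norm_inv]
    exact inv_eq_of_mul_eq_one_right h4
  refine ⟨c'⁻¹ * c, mul_ne_zero (inv_ne_zero hc') hc, ?_⟩
  have h6 : (c'⁻¹ * c) • u - x = c'⁻¹ • (c • u - c' • x) := by
    rw [smul_sub, smul_smul, smul_smul, inv_mul_cancel₀ hc', one_smul]
  rw [h6, norm_smul, h5]
  exact mul_le_mul_of_nonneg_left h3 (norm_nonneg _)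

theorem clos : P_clos := by
  intro K _ n r L _ _ σ I x hx
  -- the ideal of a small ball is in the ideal of the local closure
  have ha : ∀ ε : ℝ, 0 < ε → ε < 1 → Van (Ball σ I ε x) ≤ Clos σ I x := by
    intro ε hε hε1 f hf
    refine ⟨fun i => Metric.ball (x i) (ε * ‖x i‖), fun i =>
      Metric.ball_mem_nhds _ (mul_pos hε (norm_pos_iff.2 (hx i))), fun y hy h t => ?_⟩
    refine hf y ⟨hy, fun i => ?_⟩ t
    obtain ⟨c, -, hc⟩ := h i
    rw [Metric.mem_ball, dist_eq_norm] at hc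
    exact R_of_near hε1 (hx i) hc
  -- every element of the ideal of the local closure is in the ideals of all small balls
  have hb : ∀ f ∈ Clos σ I x, ∀ᶠ ε in nhdsWithin (0 : ℝ) (Set.Ioi 0), f ∈ Van (Ball σ I ε x) := by
    rintro f ⟨U, hU, hf⟩
    have h1 : ∀ i, ∀ᶠ ε in nhdsWithin (0 : ℝ) (Set.Ioi 0),
        ∀ u, ‖u - x i‖ ≤ ‖x i‖ * ε → u ∈ U i := by
      intro i
      obtain ⟨δ, hδ, hball⟩ := Metric.mem_nhds_iff.1 (hU i)
      have h2 : Filter.Tendsto (fun ε : ℝ => ‖x i‖ * ε) (nhdsWithin (0 : ℝ) (Set.Ioi 0))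
          (nhds (‖x i‖ * 0)) :=
        (Filter.Tendsto.const_mul _ Filter.tendsto_id).mono_left nhdsWithin_le_nhds
      rw [mul_zero] at h2
      filter_upwards [h2.eventually (gt_mem_nhds hδ)] with ε hε u hu
      apply hball
      rw [Metric.mem_ball, dist_eq_norm]
      exact hu.trans_lt hε
    filter_upwards [Filter.eventually_all.2 h1] with ε hε y hy t
    refine hf y hy.1 (fun i => ?_) t
    obtain ⟨c, hc, hcu⟩ := near_of_R (hy.2 i)
    exact ⟨c, hc, hε i _ hcu⟩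
  obtain ⟨G, hG⟩ := (isNoetherianRing_iff_ideal_fg _).1
    (inferInstance : IsNoetherianRing (MvPolynomial (Fin n) K)) (Clos σ I x)
  have hc : ∀ᶠ ε in nhdsWithin (0 : ℝ) (Set.Ioi 0), ∀ g ∈ G, g ∈ Van (Ball σ I ε x) := by
    rw [Filter.eventually_all_finset]
    intro g hg
    apply hb
    rw [← hG]
    exact Ideal.subset_span hg
  have hd : ∀ᶠ ε in nhdsWithin (0 : ℝ) (Set.Ioi 0), ε < 1 :=
    nhdsWithin_le_nhds (gt_mem_nhds one_pos)
  obtain ⟨ε, ⟨h1, h2⟩, h3⟩ := ((hc.and hd).and self_mem_nhdsWithin).exists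
  refine ⟨ε, h3, h2, le_antisymm ?_ (ha ε h3 h2)⟩
  rw [← hG]
  exact Ideal.span_le.2 h1

end Pool.Agent.Q96.PG.CL
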