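import Pool.Agent.Q44.PG.Stm

/-!
# Project PG (helper44), job VA: ideals of sets of points
-/

set_option autoImplicit false

namespace Pool.Agent.Q96.PG.VA

open MvPolynomial Pool.Agent.Q44.SA Pool.Agent.Q44.PG
open Pool.Agent.Q190.SA (eval2_smul)

variable {K : Type} [Field K] {n : ℕ}

/-- the restriction of a polynomial to the line through `y` -/
noncomputable def ev (y : Fin n → K) : MvPolynomial (Fin n) K →+* Polynomial K :=
  (aeval fun i => Polynomial.C (y i) * Polynomial.X : MvPolynomial (Fin n) K →ₐ[K] Polynomial K).toRingHom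

theorem ev_eval (y : Fin n → K) (f : MvPolynomial (Fin n) K) (t : K) :
    (ev y f).eval t = eval (t • y) f := by
  have h : (Polynomial.evalRingHom t).comp (ev y) = (eval (t • y) : MvPolynomial (Fin n) K →+* K) := by
    apply MvPolynomial.ringHom_ext
    · intro a
      simp [ev]
    · intro i
      simp only [ev, AlgHom.toRingHom_eq_coe, RingHom.coe_comp, RingHom.coe_coe, Function.comp_apply,
        aeval_X, Polynomial.coe_evalRingHom, Polynomial.eval_mul, Polynomial.eval_C,
        Polynomial.eval_X, eval_X, Pi.smul_apply, smul_eq_mul]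
      exact mul_comm _ _
  exact congrArg (fun φ : MvPolynomial (Fin n) K →+* K => φ f) h

theorem ev_zero_iff [Infinite K] (y : Fin n → K) (f : MvPolynomial (Fin n) K) :
    ev y f = 0 ↔ ∀ t : K, eval (t • y) f = 0 := by
  constructor
  · intro h t
    rw [← ev_eval, h, Polynomial.eval_zero]
  · intro h
    apply Polynomial.funext
    intro t
    rw [ev_eval, h t, Polynomial.eval_zero]

theorem eval_smul {d : ℕ} {p : MvPolynomial (Fin n) K} (hp : p.IsHomogeneous d) (t : K)
    (y : Fin n → K) : eval (t • y) p = t ^ d * eval y p := by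
  have := eval2_smul (RingHom.id K) hp t y
  rw [eval₂_id, eval₂_id] at this
  exact this

theorem ev_hom [Infinite K] {d : ℕ} {p : MvPolynomial (Fin n) K} (hp : p.IsHomogeneous d)
    (y : Fin n → K) : ev y p = Polynomial.C (eval y p) * Polynomial.X ^ d := by
  apply Polynomial.funext
  intro t
  rw [ev_eval, eval_smul hp, Polynomial.eval_mul, Polynomial.eval_C, Polynomial.eval_pow,
    Polynomial.eval_X, mul_comm]

theorem ev_coeff [Infinite K] (y : Fin n → K) (f : MvPolynomial (Fin n) K) (d : ℕ) :
    (ev y f).coeff d = eval y (homogeneousComponent d f) := by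
  have h1 : ev y f = ∑ i ∈ Finset.range (f.totalDegree + 1),
      Polynomial.C (eval y (homogeneousComponent i f)) * Polynomial.X ^ i := by
    conv_lhs => rw [← sum_homogeneousComponent f]
    rw [map_sum]
    exact Finset.sum_congr rfl fun i _ => ev_hom (homogeneousComponent_isHomogeneous i f) y
  rw [h1, Polynomial.finsetSum_coeff]
  simp only [Polynomial.coeff_C_mul, Polynomial.coeff_X_pow, mul_ite, mul_one, mul_zero]
  rw [Finset.sum_ite_eq]
  split_ifs with h
  · rfl
  · rw [Finset.mem_range, not_lt] at h
    rw [homogeneousComponent_eq_zero _ _ (by omega), map_zero]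

/-- vanishing on a line means vanishing of all homogeneous components -/
theorem line_iff [Infinite K] (y : Fin n → K) (f : MvPolynomial (Fin n) K) :
    (∀ t : K, eval (t • y) f = 0) ↔ ∀ d, eval y (homogeneousComponent d f) = 0 := by
  rw [← ev_zero_iff]
  constructor
  · intro h d
    rw [← ev_coeff, h, Polynomial.coeff_zero]
  · intro h
    ext d
    rw [ev_coeff, h d, Polynomial.coeff_zero]

theorem mem_van {Y : Set (Fin n → K)} {f : MvPolynomial (Fin n) K} :
    f ∈ Van Y ↔ ∀ y ∈ Y, ∀ t : K, eval (t • y) f = 0 := Iff.rfl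

theorem van_prime [Infinite K] (y : Fin n → K) :
    (Van {y} : Ideal (MvPolynomial (Fin n) K)).IsPrime := by
  have h : (Van {y} : Ideal (MvPolynomial (Fin n) K)) = RingHom.ker (ev y) := by
    ext f
    rw [mem_van, RingHom.mem_ker, ev_zero_iff]
    simp
  rw [h]
  exact RingHom.ker_isPrime _

theorem van_anti {Y Y' : Set (Fin n → K)} (h : Y ⊆ Y') : Van Y' ≤ Van Y :=
  fun _ hf y hy => hf y (h hy)

theorem van_homog [Infinite K] (Y : Set (Fin n → K)) : Homog (Van Y) := by
  intro f hf d y hy t
  rw [eval_smul (homogeneousComponent_isHomogeneous d f), (line_iff y f).1 (hf y hy) d, mul_zero]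

theorem main : P_van := by
  intro K _ _ n I hI Y hY
  refine ⟨van_homog Y, ?_, ?_, ?_, fun y hy => ⟨van_anti (Set.singleton_subset_iff.2 hy), van_prime y⟩⟩
  · apply le_antisymm _ Ideal.le_radical
    intro f hf y hy
    obtain ⟨m, hm⟩ := Ideal.mem_radical_iff.1 hf
    have h1 : f ^ m ∈ (Van {y} : Ideal (MvPolynomial (Fin n) K)) :=
      van_anti (Set.singleton_subset_iff.2 hy) hm
    exact (van_prime y).mem_of_pow_mem m h1 y rfl
  · intro f hf y hy
    rw [line_iff]
    intro d
    have := (hY y hy).2 _ (hI f hf d)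
    rwa [eval₂_id] at this
  · apply le_antisymm
    · apply van_anti
      intro y hy
      refine ⟨hY y hy, fun f hf => ?_⟩
      have := hf y hy 1
      rwa [one_smul] at this
    · intro f hf y hy
      rw [line_iff]
      intro d
      exact hy.2 _ (van_homog Y f hf d)

end Pool.Agent.Q96.PG.VA
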