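import Pool.Agent.Q44.PG.Stm

/-!
# Project PG (helper44), job IM: images of ideals of sets of points
-/

set_option autoImplicit false

namespace Pool.Agent.Q96.PG.IM

open MvPolynomial Pool.Agent.Q44.SA Pool.Agent.Q44.PG
open Pool.Agent.Q190.SA (eval2_smul rel_exists bind_at relH rel_unique)

theorem mem_im {K : Type} [Field K] {n : ℕ} {I : Ideal (MvPolynomial (Fin n) K)} (φ : Mor I)
    (J : Ideal (MvPolynomial (Fin n) K)) (f : MvPolynomial (Fin n) K) :
    f ∈ Im φ J ↔ ∀ l, bind₁ (φ.F l) f ∈ J := by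
  unfold Im
  rw [Ideal.mem_iInf]
  exact Iff.rfl

/-- a polynomial which vanishes at all `t ^ d • v` vanishes on the line through `v` -/
theorem line_of_pow {K : Type} [Field K] [Infinite K] {n : ℕ} (v : Fin n → K)
    (f : MvPolynomial (Fin n) K) {d : ℕ} (hd : 0 < d) (h : ∀ t : K, eval (t ^ d • v) f = 0) :
    ∀ u : K, eval (u • v) f = 0 := by
  obtain ⟨P, hP⟩ : ∃ P : Polynomial K, ∀ t, P.eval t = eval (t • v) f := by
    refine ⟨aeval (fun i => Polynomial.C (v i) * Polynomial.X) f, fun t => ?_⟩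
    have h1 : (Polynomial.evalRingHom t).comp
        ((aeval fun i => Polynomial.C (v i) * Polynomial.X :
          MvPolynomial (Fin n) K →ₐ[K] Polynomial K).toRingHom) =
        (eval (t • v) : MvPolynomial (Fin n) K →+* K) := by
      apply MvPolynomial.ringHom_ext
      · intro a
        simp
      · intro i
        simp only [AlgHom.toRingHom_eq_coe, RingHom.coe_comp, RingHom.coe_coe,
          Function.comp_apply, aeval_X, Polynomial.coe_evalRingHom, Polynomial.eval_mul,
          Polynomial.eval_C, Polynomial.eval_X, eval_X, Pi.smul_apply, smul_eq_mul]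
        exact mul_comm _ _
    exact congrArg (fun φ : MvPolynomial (Fin n) K →+* K => φ f) h1
  have h2 : Polynomial.expand K d P = 0 := by
    apply Polynomial.funext
    intro t
    rw [Polynomial.expand_eval, hP, h t, Polynomial.eval_zero]
  rw [Polynomial.expand_eq_zero hd] at h2
  intro u
  rw [← hP, h2, Polynomial.eval_zero]

theorem im : P_im := by
  intro K _ _ n I hI φ Y hY
  have hev : ∀ (f : MvPolynomial (Fin n) K) (l : Fin φ.p) (y : Fin n → K) (t : K),
      eval (t • y) (bind₁ (φ.F l) f) = eval (t ^ φ.d l • fun a => eval y (φ.F l a)) f := by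
    intro f l y t
    have h1 := bind_at (RingHom.id K) (t • y) (φ.F l) f
    rw [eval₂_id, eval₂_id] at h1
    rw [h1]
    congr 2
    funext a
    have h2 := eval2_smul (RingHom.id K) (φ.hom l a) t y
    rw [eval₂_id, eval₂_id] at h2
    rw [eval₂_id, h2]
    rfl
  ext f
  rw [mem_im]
  constructor
  · rintro hf y' ⟨y, hy, l, -, c, -, hc⟩ t
    have h1 := line_of_pow (fun a => eval y (φ.F l a)) f (φ.pos l) fun s => by
      rw [← hev]
      exact hf l y hy s
    have h2 : t • y' = (t * c) • fun a => eval y (φ.F l a) := by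
      funext a
      rw [Pi.smul_apply, Pi.smul_apply, hc a, eval₂_id, smul_eq_mul, smul_eq_mul, mul_assoc]
    rw [h2]
    exact h1 _
  · intro hf l y hy t
    rw [hev]
    by_cases h0 : ∃ a, eval y (φ.F l a) ≠ 0
    · refine hf _ ⟨y, hy, l, ?_, 1, one_ne_zero, fun a => ?_⟩ _
      · obtain ⟨a, ha⟩ := h0
        exact ⟨a, by rwa [eval₂_id]⟩
      · rw [eval₂_id, one_mul]
    · push Not at h0
      obtain ⟨y', hy'⟩ := rel_exists φ (RingHom.id K) (hY y hy)
      have h1 := hf y' ⟨y, hy, hy'⟩ 0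
      have h2 : (t ^ φ.d l • fun a => eval y (φ.F l a)) = (0 : K) • y' := by
        funext a
        rw [Pi.smul_apply, Pi.smul_apply, h0 a, smul_zero, zero_smul]
      rw [h2]
      exact h1

theorem im2 (h : P_im) : P_im2 := by
  intro K _ _ n I hI φ ψ hinv Y hY
  have h1 : ∀ y' ∈ {y' | ∃ y ∈ Y, φ.Rel (RingHom.id K) y y'}, Pt (RingHom.id K) I y' := by
    rintro y' ⟨y, hy, hyy⟩
    exact ((relH K K (RingHom.id K) n I hI φ ψ hinv y (hY y hy)).2 y' hyy).1
  rw [h K n I hI φ Y hY, h K n I hI ψ _ h1]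
  apply le_antisymm
  · intro f hf y hy
    obtain ⟨y', hy'⟩ := (relH K K (RingHom.id K) n I hI φ ψ hinv y (hY y hy)).1
    exact hf y ⟨y', ⟨y, hy, hy'⟩,
      ((relH K K (RingHom.id K) n I hI φ ψ hinv y (hY y hy)).2 y' hy').2.1⟩
  · rintro f hf y'' ⟨y', ⟨y, hy, hyy⟩, hy''⟩ t
    have h2 := ((relH K K (RingHom.id K) n I hI φ ψ hinv y (hY y hy)).2 y' hyy)
    obtain ⟨s, -, hs⟩ := rel_unique ψ (RingHom.id K) h2.1 h2.2.1 hy''
    rw [hs, smul_smul]
    exact hf y hy _

end Pool.Agent.Q96.PG.IM
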